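import Mathlib

set_option autoImplicit false

namespace Pool.Agent.Results.MP_0c20fd_an.NotSmooth

open scoped BigOperators

/-- The weak `ℓ₂` norm of a finite family: the supremum over functionals `f` in the unit ball of
the dual space of `(∑ |f(x_i)|²)^(1/2)`. -/
noncomputable def weakL2 (𝕜 : Type) [RCLike 𝕜] {X : Type} [NormedAddCommGroup X]
    [NormedSpace 𝕜 X] {m : ℕ} (x : Fin m → X) : ℝ :=
  sSup {w : ℝ | ∃ f : X →L[𝕜] 𝕜, ‖f‖ ≤ 1 ∧ w = Real.sqrt (∑ i, ‖f (x i)‖ ^ 2)}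

/-- The 2-summing norm: the least constant `C ≥ 0` with
`(∑ ‖T x_i‖²)^(1/2) ≤ C * weakL2 x` for all finite families `x`. -/
noncomputable def pi2 {𝕜 : Type} [RCLike 𝕜] {X : Type} [NormedAddCommGroup X]
    [NormedSpace 𝕜 X] (T : X →ₗ[𝕜] X) : ℝ :=
  sInf {C : ℝ | 0 ≤ C ∧ ∀ (m : ℕ) (x : Fin m → X),
    Real.sqrt (∑ i, ‖T (x i)‖ ^ 2) ≤ C * weakL2 𝕜 x}

/-- The norm of a linear functional on the space of operators with the norm `pi2`. -/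
noncomputable def dualNorm {𝕜 : Type} [RCLike 𝕜] {X : Type} [NormedAddCommGroup X]
    [NormedSpace 𝕜 X] (φ : (X →ₗ[𝕜] X) →ₗ[𝕜] 𝕜) : ℝ :=
  sSup {r : ℝ | ∃ S : X →ₗ[𝕜] X, pi2 S ≤ 1 ∧ r = ‖φ S‖}

section general

variable {𝕜 : Type} [RCLike 𝕜] {X : Type} [NormedAddCommGroup X] [NormedSpace 𝕜 X]

lemma weak_bdd {m : ℕ} (x : Fin m → X) :
    BddAbove {w : ℝ | ∃ f : X →L[𝕜] 𝕜, ‖f‖ ≤ 1 ∧ w = Real.sqrt (∑ i, ‖f (x i)‖ ^ 2)} := by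
  refine ⟨Real.sqrt (∑ i, ‖x i‖ ^ 2), ?_⟩
  rintro w ⟨f, hf, rfl⟩
  apply Real.sqrt_le_sqrt
  apply Finset.sum_le_sum
  intro i _
  have h1 : ‖f (x i)‖ ≤ ‖x i‖ := by
    calc ‖f (x i)‖ ≤ ‖f‖ * ‖x i‖ := f.le_opNorm _
      _ ≤ 1 * ‖x i‖ := by gcongr
      _ = ‖x i‖ := one_mul _
  exact pow_le_pow_left₀ (norm_nonneg _) h1 2

lemma le_weak {m : ℕ} (x : Fin m → X) (f : X →L[𝕜] 𝕜) (hf : ‖f‖ ≤ 1) :
    Real.sqrt (∑ i, ‖f (x i)‖ ^ 2) ≤ weakL2 𝕜 x :=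
  le_csSup (weak_bdd x) ⟨f, hf, rfl⟩

lemma weak_nonneg {m : ℕ} (x : Fin m → X) : 0 ≤ weakL2 𝕜 x :=
  le_trans (Real.sqrt_nonneg _) (le_weak x 0 (by simp))

lemma weak_single (v : X) : weakL2 𝕜 (fun _ : Fin 1 => v) ≤ ‖v‖ := by
  unfold weakL2
  refine csSup_le ⟨_, (0 : X →L[𝕜] 𝕜), by simp, rfl⟩ ?_
  rintro w ⟨f, hf, rfl⟩
  have h1 : ‖f v‖ ≤ ‖v‖ := by
    calc ‖f v‖ ≤ ‖f‖ * ‖v‖ := f.le_opNorm _
      _ ≤ 1 * ‖v‖ := by gcongr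
      _ = ‖v‖ := one_mul _
  simpa using h1

end general

section plane

variable {𝕜 : Type} [RCLike 𝕜]

lemma proj_norm (j : Fin 2) :
    ‖(ContinuousLinearMap.proj j : (Fin 2 → 𝕜) →L[𝕜] 𝕜)‖ ≤ 1 := by
  apply ContinuousLinearMap.opNorm_le_bound _ zero_le_one
  intro x
  simpa using norm_le_pi_norm x j

lemma coord_le {m : ℕ} (x : Fin m → Fin 2 → 𝕜) (j : Fin 2) :
    ∑ i, ‖x i j‖ ^ 2 ≤ weakL2 𝕜 x ^ 2 := by
  have h := le_weak x (ContinuousLinearMap.proj j : (Fin 2 → 𝕜) →L[𝕜] 𝕜) (proj_norm j)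
  have h0 : 0 ≤ ∑ i, ‖x i j‖ ^ 2 := Finset.sum_nonneg fun i _ => by positivity
  have h2 := pow_le_pow_left₀ (Real.sqrt_nonneg _) h 2
  simp only [ContinuousLinearMap.proj_apply] at h2
  rwa [Real.sq_sqrt h0] at h2

/-- A domination `‖S v‖ ≤ c (|v₀| + |v₁|)` gives the admissible constant `2 c`. -/
lemma mem_of_dom (S : (Fin 2 → 𝕜) →ₗ[𝕜] (Fin 2 → 𝕜)) (c : ℝ) (hc : 0 ≤ c)
    (h : ∀ v, ‖S v‖ ≤ c * (‖v 0‖ + ‖v 1‖)) :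
    2 * c ∈ {C : ℝ | 0 ≤ C ∧ ∀ (m : ℕ) (x : Fin m → Fin 2 → 𝕜),
      Real.sqrt (∑ i, ‖S (x i)‖ ^ 2) ≤ C * weakL2 𝕜 x} := by
  refine ⟨by positivity, fun m x => ?_⟩
  have hw := weak_nonneg (𝕜 := 𝕜) x
  apply Real.sqrt_le_iff.mpr
  refine ⟨by positivity, ?_⟩
  have h0 := coord_le x 0
  have h1 := coord_le x 1
  calc ∑ i, ‖S (x i)‖ ^ 2 ≤ ∑ i, (2 * c ^ 2 * (‖x i 0‖ ^ 2 + ‖x i 1‖ ^ 2)) := by
        apply Finset.sum_le_sum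
        intro i _
        have h3 := pow_le_pow_left₀ (norm_nonneg _) (h (x i)) 2
        have h4 : (‖x i 0‖ + ‖x i 1‖) ^ 2 ≤ 2 * (‖x i 0‖ ^ 2 + ‖x i 1‖ ^ 2) := by
          nlinarith [sq_nonneg (‖x i 0‖ - ‖x i 1‖)]
        calc ‖S (x i)‖ ^ 2 ≤ (c * (‖x i 0‖ + ‖x i 1‖)) ^ 2 := h3
          _ = c ^ 2 * (‖x i 0‖ + ‖x i 1‖) ^ 2 := by ring
          _ ≤ c ^ 2 * (2 * (‖x i 0‖ ^ 2 + ‖x i 1‖ ^ 2)) := by gcongr
          _ = 2 * c ^ 2 * (‖x i 0‖ ^ 2 + ‖x i 1‖ ^ 2) := by ring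
    _ = 2 * c ^ 2 * (∑ i, ‖x i 0‖ ^ 2 + ∑ i, ‖x i 1‖ ^ 2) := by
        rw [← Finset.mul_sum, Finset.sum_add_distrib]
    _ ≤ 2 * c ^ 2 * (weakL2 𝕜 x ^ 2 + weakL2 𝕜 x ^ 2) := by gcongr
    _ = (2 * c * weakL2 𝕜 x) ^ 2 := by ring

lemma dom_exists (S : (Fin 2 → 𝕜) →ₗ[𝕜] (Fin 2 → 𝕜)) :
    ∃ c : ℝ, 0 ≤ c ∧ ∀ v, ‖S v‖ ≤ c * (‖v 0‖ + ‖v 1‖) := by
  refine ⟨‖LinearMap.toContinuousLinearMap S‖, norm_nonneg _, fun v => ?_⟩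
  have h1 := (LinearMap.toContinuousLinearMap S).le_opNorm v
  have h2 : ‖v‖ ≤ ‖v 0‖ + ‖v 1‖ := by
    apply (pi_norm_le_iff_of_nonneg (by positivity)).mpr
    intro j
    fin_cases j
    · simp
    · simp
  calc ‖S v‖ ≤ ‖LinearMap.toContinuousLinearMap S‖ * ‖v‖ := h1
    _ ≤ _ := by gcongr

lemma apply_le_pi2 (S : (Fin 2 → 𝕜) →ₗ[𝕜] (Fin 2 → 𝕜)) (v : Fin 2 → 𝕜) (hv : ‖v‖ ≤ 1) :
    ‖S v‖ ≤ pi2 S := by
  obtain ⟨c, hc, h⟩ := dom_exists S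
  apply le_csInf ⟨_, mem_of_dom S c hc h⟩
  rintro C ⟨hC, hS⟩
  have h1 := hS 1 (fun _ => v)
  have h2 := weak_single (𝕜 := 𝕜) v
  simp only [Finset.univ_unique, Finset.sum_singleton, norm_nonneg, Real.sqrt_sq] at h1
  calc ‖S v‖ ≤ C * weakL2 𝕜 (fun _ : Fin 1 => v) := h1
    _ ≤ C * 1 := by gcongr; exact h2.trans hv
    _ = C := mul_one _

lemma pi2_le (S : (Fin 2 → 𝕜) →ₗ[𝕜] (Fin 2 → 𝕜)) (c : ℝ) (hc : 0 ≤ c)
    (h : ∀ v, ‖S v‖ ≤ c * (‖v 0‖ + ‖v 1‖)) : pi2 S ≤ 2 * c :=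
  csInf_le ⟨0, fun _ hC => hC.1⟩ (mem_of_dom S c hc h)

/-- The operator `(x, y) ↦ (x + y, x - y)`. -/
noncomputable def T0 : (Fin 2 → 𝕜) →ₗ[𝕜] (Fin 2 → 𝕜) where
  toFun v := ![v 0 + v 1, v 0 - v 1]
  map_add' u v := by
    ext j; fin_cases j
    · simp; ring
    · simp; ring
  map_smul' a v := by
    ext j; fin_cases j
    · simp; ring
    · simp; ring

lemma T0_apply (v : Fin 2 → 𝕜) : T0 v = ![v 0 + v 1, v 0 - v 1] := rfl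

lemma T0_dom (v : Fin 2 → 𝕜) : ‖T0 v‖ ≤ 1 * (‖v 0‖ + ‖v 1‖) := by
  rw [one_mul]
  apply (pi_norm_le_iff_of_nonneg (by positivity)).mpr
  intro j
  fin_cases j
  · simpa [T0_apply] using norm_add_le (v 0) (v 1)
  · simpa [T0_apply] using norm_sub_le (v 0) (v 1)

/-- The functional `S ↦ (S v) j`. -/
noncomputable def ev (v : Fin 2 → 𝕜) (j : Fin 2) :
    ((Fin 2 → 𝕜) →ₗ[𝕜] (Fin 2 → 𝕜)) →ₗ[𝕜] 𝕜 where
  toFun S := S v j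
  map_add' _ _ := by simp
  map_smul' _ _ := by simp

lemma ev_apply (v : Fin 2 → 𝕜) (j : Fin 2) (S : (Fin 2 → 𝕜) →ₗ[𝕜] (Fin 2 → 𝕜)) :
    ev v j S = S v j := rfl

lemma ev_le (v : Fin 2 → 𝕜) (hv : ‖v‖ ≤ 1) (j : Fin 2)
    (S : (Fin 2 → 𝕜) →ₗ[𝕜] (Fin 2 → 𝕜)) : ‖ev v j S‖ ≤ pi2 S :=
  le_trans (norm_le_pi_norm (S v) j) (apply_le_pi2 S v hv)

lemma n11 : ‖(![1, 1] : Fin 2 → 𝕜)‖ ≤ 1 := by
  apply (pi_norm_le_iff_of_nonneg zero_le_one).mpr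
  intro j; fin_cases j <;> simp

lemma n1m : ‖(![1, -1] : Fin 2 → 𝕜)‖ ≤ 1 := by
  apply (pi_norm_le_iff_of_nonneg zero_le_one).mpr
  intro j; fin_cases j <;> simp

lemma pi2_T0 : pi2 (T0 (𝕜 := 𝕜)) = 2 := by
  apply le_antisymm
  · simpa using pi2_le (T0 (𝕜 := 𝕜)) 1 zero_le_one T0_dom
  · have h := ev_le (𝕜 := 𝕜) ![1, 1] n11 0 T0
    have h2 : ev (𝕜 := 𝕜) ![1, 1] 0 T0 = 2 := by
      simp [ev_apply, T0_apply]; norm_num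
    rw [h2] at h
    simpa using h

lemma dualNorm_ev (v : Fin 2 → 𝕜) (hv : ‖v‖ ≤ 1) (j : Fin 2) (h2 : ev v j T0 = 2) :
    dualNorm (ev v j) = 1 := by
  have hmem : (1 : ℝ) ∈ {r : ℝ | ∃ S : (Fin 2 → 𝕜) →ₗ[𝕜] (Fin 2 → 𝕜),
      pi2 S ≤ 1 ∧ r = ‖ev v j S‖} := by
    refine ⟨(2 : 𝕜)⁻¹ • T0, ?_, ?_⟩
    · have h := pi2_le ((2 : 𝕜)⁻¹ • T0 (𝕜 := 𝕜)) (1 / 2) (by norm_num) (fun u => by
        have h1 := T0_dom u
        simp only [LinearMap.smul_apply, norm_smul, norm_inv, RCLike.norm_ofNat]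
        linarith)
      linarith
    · rw [map_smul, h2]; simp
  have hub : ∀ r ∈ {r : ℝ | ∃ S : (Fin 2 → 𝕜) →ₗ[𝕜] (Fin 2 → 𝕜),
      pi2 S ≤ 1 ∧ r = ‖ev v j S‖}, r ≤ 1 := by
    rintro r ⟨S, hS, rfl⟩
    exact (ev_le v hv j S).trans hS
  exact le_antisymm (csSup_le ⟨1, hmem⟩ hub) (le_csSup ⟨1, hub⟩ hmem)

lemma T0_bij : Function.Bijective (T0 (𝕜 := 𝕜)) := by
  have hinj : Function.Injective (T0 (𝕜 := 𝕜)) := by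
    rw [← LinearMap.ker_eq_bot, LinearMap.ker_eq_bot']
    intro v hv
    have h0 := congrFun hv 0
    have h1 := congrFun hv 1
    simp only [T0_apply, Matrix.cons_val_zero, Pi.zero_apply, Matrix.cons_val_one] at h0 h1
    have e0 : v 0 = 0 := by
      have : (2 : 𝕜) * v 0 = 0 := by linear_combination h0 + h1
      simpa using this
    have e1 : v 1 = 0 := by
      have : (2 : 𝕜) * v 1 = 0 := by linear_combination h0 - h1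
      simpa using this
    ext j; fin_cases j
    · simpa using e0
    · simpa using e1
  exact ⟨hinj, LinearMap.injective_iff_surjective.mp hinj⟩

end plane

/-- Over either scalar field there are a finite-dimensional Banach space `X` and an invertible
operator `T` on `X` such that two distinct norm-one functionals on `Π₂(X,X)` attain the value
`π₂(T)` at `T`. -/
theorem result (𝕜 : Type) [RCLike 𝕜] :
    ∃ (X : Type) (_ : NormedAddCommGroup X) (_ : NormedSpace 𝕜 X) (_ : FiniteDimensional 𝕜 X)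
      (_ : CompleteSpace X) (T : X →ₗ[𝕜] X), Function.Bijective T ∧
      ∃ φ ψ : (X →ₗ[𝕜] X) →ₗ[𝕜] 𝕜, φ ≠ ψ ∧ dualNorm φ = 1 ∧ dualNorm ψ = 1 ∧
        φ T = ((pi2 T : ℝ) : 𝕜) ∧ ψ T = ((pi2 T : ℝ) : 𝕜) := by
  have e1 : ev (𝕜 := 𝕜) ![1, 1] 0 T0 = 2 := by
    simp [ev_apply, T0_apply]; norm_num
  have e2 : ev (𝕜 := 𝕜) ![1, -1] 1 T0 = 2 := by
    simp [ev_apply, T0_apply]; norm_num
  refine ⟨Fin 2 → 𝕜, inferInstance, inferInstance, inferInstance, inferInstance, T0, T0_bij,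
    ev ![1, 1] 0, ev ![1, -1] 1, ?_, dualNorm_ev _ n11 _ e1, dualNorm_ev _ n1m _ e2, ?_, ?_⟩
  · intro h
    have h1 := LinearMap.congr_fun h LinearMap.id
    simp only [ev_apply, LinearMap.id_coe, id_eq, Matrix.cons_val_zero, Matrix.cons_val_one] at h1
    have h2 : (2 : 𝕜) = 0 := by linear_combination h1
    exact two_ne_zero h2
  · rw [e1, pi2_T0]; norm_cast
  · rw [e2, pi2_T0]; norm_cast

end Pool.Agent.Results.MP_0c20fd_an.NotSmooth
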