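import Pool.Agent.Lib.MP_0c20fd_an.Strict

set_option autoImplicit false

namespace Pool.Agent.Results.MP_0c20fd_an.StrictlyConvex

open Pool.Agent.Results.MP_0c20fd_an.NotSmooth Pool.Agent.Lib.MP_0c20fd_an

/-- If the finite-dimensional space `X` is strictly convex, exactly one norm-one functional on
`Π₂(X,X)` attains the value `π₂(T)` at the invertible operator `T`. -/
theorem result (𝕜 : Type) [RCLike 𝕜] (X : Type) [NormedAddCommGroup X] [NormedSpace 𝕜 X]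
    [FiniteDimensional 𝕜 X] [Nontrivial X]
    (hX : ∀ x y : X, ‖x‖ = 1 → ‖y‖ = 1 → x ≠ y → ‖x + y‖ < 2)
    (T : X →ₗ[𝕜] X) (hT : Function.Bijective T) :
    ∃! φ : (X →ₗ[𝕜] X) →ₗ[𝕜] 𝕜, dualNorm φ = 1 ∧ φ T = ((pi2 T : ℝ) : 𝕜) := by
  have h0 : T ≠ 0 := by
    rintro rfl
    obtain ⟨x, y, h⟩ := exists_pair_ne X
    exact h (hT.1 rfl)
  obtain ⟨φ, h1, h2⟩ := exists_norming h0
  exact ⟨φ, ⟨(dual_iff h0 h1).2 h2, h1⟩, fun ψ h =>
    unique hX hT ((dual_iff h0 h.2).1 h.1) h.2 h2 h1⟩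

end Pool.Agent.Results.MP_0c20fd_an.StrictlyConvex
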